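import Mathlib
import Pool.Agent.H576.CT.Stm

/-! # Separated nets (helper965 for project CT of helper576) -/

set_option autoImplicit false

namespace Pool.Agent.H965

open Finset Pool.Agent.TH112.BW Pool.Agent.H576.CT

theorem ct_net : S_NET := by
  classical
  intro V _ _ G hG v0 r hr
  -- a separated set of maximal cardinality
  obtain ⟨P, hP, hmax⟩ := Finset.exists_max_image
    ((Finset.univ : Finset (Finset V)).filter fun P => v0 ∈ P ∧
      ∀ a ∈ P, ∀ a' ∈ P, a ≠ a' → r ≤ G.dist a a') Finset.card
    ⟨{v0}, by
      rw [Finset.mem_filter]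
      refine ⟨Finset.mem_univ _, Finset.mem_singleton_self _, ?_⟩
      intro a ha a' ha' hne
      rw [Finset.mem_singleton] at ha ha'
      exact absurd (ha.trans ha'.symm) hne⟩
  rw [Finset.mem_filter] at hP
  obtain ⟨-, hv0, hsep⟩ := hP
  have hcov : ∀ x, ∃ a ∈ P, G.dist x a < r := by
    intro x
    by_contra hcon
    push Not at hcon
    have hx : x ∉ P := by
      intro hx
      have h1 := hcon x hx
      rw [SimpleGraph.dist_self] at h1
      omega
    have h2 := hmax (insert x P) (by
      rw [Finset.mem_filter]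
      refine ⟨Finset.mem_univ _, Finset.mem_insert_of_mem hv0, ?_⟩
      intro a ha a' ha' hne
      rcases Finset.mem_insert.mp ha with hax | haP
      · rcases Finset.mem_insert.mp ha' with hax' | haP'
        · exact absurd (hax.trans hax'.symm) hne
        · rw [hax]
          exact hcon a' haP'
      · rcases Finset.mem_insert.mp ha' with hax' | haP'
        · rw [hax', SimpleGraph.dist_comm]
          exact hcon a haP
        · exact hsep a haP a' haP' hne)
    rw [Finset.card_insert_of_notMem hx] at h2
    omega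
  let H : SimpleGraph V :=
    { Adj := fun a a' => a ≠ a' ∧ a ∈ P ∧ a' ∈ P ∧ G.dist a a' ≤ 2 * r
      symm := ⟨fun a a' h => ⟨h.1.symm, h.2.2.1, h.2.1, by rw [SimpleGraph.dist_comm]; exact h.2.2.2⟩⟩
      loopless := ⟨fun a h => h.1 rfl⟩ }
  have hstep : ∀ a ∈ P, ∀ a' ∈ P, G.dist a a' ≤ 2 * r → H.Reachable a a' := by
    intro a ha a' ha' hd
    by_cases h : a = a'
    · rw [h]
    · exact SimpleGraph.Adj.reachable (show H.Adj a a' from ⟨h, ha, ha', hd⟩)
  have hwalk : ∀ (x y : V) (p : G.Walk x y), ∀ a ∈ P, ∀ a' ∈ P, G.dist x a < r →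
      G.dist y a' < r → H.Reachable a a' := by
    intro x y p
    induction p with
    | nil =>
      intro a ha a' ha' h1 h2
      refine hstep a ha a' ha' ?_
      rename_i u
      have h3 := hG.dist_triangle (u := a) (v := u) (w := a')
      rw [SimpleGraph.dist_comm (u := a) (v := u)] at h3
      omega
    | cons hadj p ih =>
      intro a ha a' ha' h1 h2
      rename_i u v w
      obtain ⟨b, hb, hvb⟩ := hcov v
      refine (hstep a ha b hb ?_).trans (ih b hb a' ha' hvb h2)
      have h3 := hG.dist_triangle (u := a) (v := u) (w := b)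
      have h4 := hG.dist_triangle (u := u) (v := v) (w := b)
      have h5 : G.dist u v = 1 := SimpleGraph.dist_eq_one_iff_adj.mpr hadj
      rw [SimpleGraph.dist_comm (u := a) (v := u)] at h3
      omega
  refine ⟨P, hv0, hsep, hcov, H, fun a a' => Iff.rfl, ?_⟩
  intro a ha a' ha'
  obtain ⟨p⟩ := hG.preconnected a a'
  exact hwalk a a' p a ha a' ha' (by rw [SimpleGraph.dist_self]; omega)
    (by rw [SimpleGraph.dist_self]; omega)

end Pool.Agent.H965
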